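import Mathlib

/-!
# Separator exponent versus expansion exponent: `c* = 1`

Let `A` be the set of all `c > 0` such that, for every `0 < δ ≤ 1`, every monotone class of graphs
with balanced separators of order `O(n ^ (1 - δ))` has expansion `O(r ^ (c / δ))`. It is known that
`A` contains every `c > 1`. We show that `A` contains no `c < 1`, so that `inf A = 1`.

The class. Let `0 < δ < 1` and `l = ⌈t ^ (δ / (1 - δ))⌉`. We take all subgraphs of the graphs
`K_t` with every edge replaced by a path with `2 l` inner vertices, `t = 0, 1, 2, …`. If a component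
`X` of a subgraph on `n` vertices contains more than one branch vertex then it contains a whole leg
(half of the path) of each of its `m` branch vertices, so that `m l ≤ n`; as `m ≤ t` too, we get
`m ≤ t ^ δ (n / l) ^ (1 - δ) ≤ n ^ (1 - δ)`. Without the branch vertices `X` falls into paths, and one
more vertex is enough for a balanced separator. On the other hand `K_t` is a depth-`l` minor, and
`t` is about `l ^ ((1 - δ) / δ)`. So `c / δ ≥ (1 - δ) / δ` for every `c` in `A`, and `δ → 0` gives
`c ≥ 1`.
-/

set_option autoImplicit false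

namespace Pool.Agent.Results.MP_2f3b43_co.SeparatorExponent

open Filter Asymptotics

/-- A class of graphs. -/
abbrev GraphClass := ∀ V : Type, SimpleGraph V → Prop

/-- The class is monotone: a finite graph `H` with an injective homomorphism into a finite member
`G` (that is, a graph isomorphic to a subgraph of `G`) is a member. -/
def IsMonotone (C : GraphClass) : Prop :=
  ∀ (V W : Type) [Finite V] [Finite W] (G : SimpleGraph V) (H : SimpleGraph W) (f : W → V),
    Function.Injective f → (∀ a b, H.Adj a b → G.Adj (f a) (f b)) → C V G → C W H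

/-- Every component of `G - S` has at most `2 n / 3` vertices, `n` the number of vertices
of `G`. -/
def IsBalancedSeparator {V : Type} (G : SimpleGraph V) (S : Set V) : Prop :=
  ∀ c : (G.induce Sᶜ).ConnectedComponent, 3 * Nat.card c.supp ≤ 2 * Nat.card V

/-- The finite graphs of the class with `n` vertices have balanced separators of order
`O(n ^ (1 - δ))`. -/
def HasSeparators (C : GraphClass) (δ : ℝ) : Prop :=
  ∃ K : ℝ, ∀ (V : Type) [Finite V] (G : SimpleGraph V), C V G →
    ∃ S : Set V, IsBalancedSeparator G S ∧ (S.ncard : ℝ) ≤ K * (Nat.card V : ℝ) ^ (1 - δ)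

/-- `H` is a depth-`r` minor of `G`: there are disjoint connected subgraphs of `G` of radius at most
`r`, one for each vertex of `H`, with an edge of `G` between two of them for each edge of `H`. -/
def IsDepthMinor {V W : Type} (r : ℕ) (H : SimpleGraph W) (G : SimpleGraph V) : Prop :=
  ∃ S : W → Set V, (∀ u v, u ≠ v → Disjoint (S u) (S v)) ∧
    (∀ u, ∃ x : S u, ∀ y : S u, ∃ p : (G.induce (S u)).Walk x y, p.length ≤ r) ∧
    ∀ u v, H.Adj u v → ∃ a ∈ S u, ∃ b ∈ S v, G.Adj a b

/-- The average degree `2 |E| / |V|`. -/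
noncomputable def averageDegree {W : Type} (H : SimpleGraph W) : ℝ :=
  2 * (H.edgeSet.ncard : ℝ) / Nat.card W

/-- The expansion of the class is bounded by `f`: for every `r` the depth-`r` minors of the members
have average degree at most `f r`. -/
def ExpansionBoundedBy (C : GraphClass) (f : ℕ → ℝ) : Prop :=
  ∀ (r : ℕ) (V W : Type) [Finite V] [Finite W] [Nonempty W] (G : SimpleGraph V)
    (H : SimpleGraph W), C V G → IsDepthMinor r H G → averageDegree H ≤ f r

/-- The set `A` of the problem. -/
def goodExponents : Set ℝ :=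
  {c : ℝ | 0 < c ∧ ∀ δ : ℝ, 0 < δ → δ ≤ 1 → ∀ C : GraphClass, IsMonotone C →
    HasSeparators C δ →
      ∃ f : ℕ → ℝ, ExpansionBoundedBy C f ∧ f =O[atTop] fun r : ℕ => (r : ℝ) ^ (c / δ)}

/-! ### The graphs -/

/-- The relation which generates the host graph. -/
def rel (t l : ℕ) : Fin t ⊕ (Fin t × Fin t × Fin l) → Fin t ⊕ (Fin t × Fin t × Fin l) → Prop
  | Sum.inl i, Sum.inr (i', _, k) => i' = i ∧ k.val = 0
  | Sum.inr (i, j, k), Sum.inr (i', j', k') =>
      (i = i' ∧ j = j' ∧ k.val + 1 = k'.val) ∨
        (i = j' ∧ j = i' ∧ k.val + 1 = l ∧ k'.val + 1 = l)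
  | _, _ => False

/-- `t` branch vertices, each with `t` legs of length `l`; the ends of the legs `(i, j)` and
`(j, i)` are adjacent. (For `i ≠ j` the two legs form a path with `2 l` inner vertices between
`i` and `j`.) -/
def host (t l : ℕ) : SimpleGraph (Fin t ⊕ (Fin t × Fin t × Fin l)) := SimpleGraph.fromRel (rel t l)

/-- The pair of branch vertices of a leg. -/
def lbl (t l : ℕ) : Fin t ⊕ (Fin t × Fin t × Fin l) → Option (Sym2 (Fin t))
  | Sum.inl _ => none
  | Sum.inr (i, j, _) => some s(i, j)

/-- The position on the path between two branch vertices. -/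
def pos (t l : ℕ) : Fin t ⊕ (Fin t × Fin t × Fin l) → ℕ
  | Sum.inl _ => 0
  | Sum.inr (i, j, k) => if i ≤ j then k.val else 2 * l - 1 - k.val

lemma adj_lbl {t l : ℕ} {u v : Fin t × Fin t × Fin l} (h : (host t l).Adj (Sum.inr u) (Sum.inr v)) :
    lbl t l (Sum.inr u) = lbl t l (Sum.inr v) ∧
      (pos t l (Sum.inr u) + 1 = pos t l (Sum.inr v) ∨
        pos t l (Sum.inr v) + 1 = pos t l (Sum.inr u)) := by
  obtain ⟨i, j, k⟩ := u
  obtain ⟨i', j', k'⟩ := v
  have hk := k.isLt
  have hk' := k'.isLt
  rw [host, SimpleGraph.fromRel_adj] at h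
  obtain ⟨hne, h | h⟩ := h
  · rcases h with ⟨rfl, rfl, h⟩ | ⟨rfl, rfl, h1, h2⟩
    · refine ⟨rfl, ?_⟩
      simp only [pos]
      split_ifs <;> omega
    · refine ⟨by simp only [lbl, Sym2.eq_swap], ?_⟩
      have hij : i ≠ j := by
        rintro rfl
        apply hne
        have : k = k' := Fin.ext (by omega)
        rw [this]
      simp only [pos]
      rcases lt_or_gt_of_ne hij with h3 | h3
      · rw [if_pos h3.le, if_neg (not_le.2 h3)]
        omega
      · rw [if_neg (not_le.2 h3), if_pos h3.le]
        omega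
  · rcases h with ⟨rfl, rfl, h⟩ | ⟨rfl, rfl, h1, h2⟩
    · refine ⟨rfl, ?_⟩
      simp only [pos]
      split_ifs <;> omega
    · refine ⟨by simp only [lbl, Sym2.eq_swap], ?_⟩
      have hij : i' ≠ j' := by
        rintro rfl
        apply hne
        have : k = k' := Fin.ext (by omega)
        rw [this]
      simp only [pos]
      rcases lt_or_gt_of_ne hij with h3 | h3
      · rw [if_pos h3.le, if_neg (not_le.2 h3)]
        omega
      · rw [if_neg (not_le.2 h3), if_pos h3.le]
        omega

lemma eq_of_pos {t l : ℕ} {u v : Fin t × Fin t × Fin l}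
    (h : lbl t l (Sum.inr u) = lbl t l (Sum.inr v))
    (hp : pos t l (Sum.inr u) = pos t l (Sum.inr v)) : u = v := by
  obtain ⟨i, j, k⟩ := u
  obtain ⟨i', j', k'⟩ := v
  have hk := k.isLt
  have hk' := k'.isLt
  simp only [lbl, Option.some.injEq, Sym2.eq_iff] at h
  simp only [pos] at hp
  rcases h with ⟨rfl, rfl⟩ | ⟨rfl, rfl⟩
  · have : k = k' := by
      apply Fin.ext
      split_ifs at hp <;> omega
    rw [this]
  · rcases lt_trichotomy i j with h3 | h3 | h3
    · rw [if_pos h3.le, if_neg (not_le.2 h3)] at hp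
      omega
    · subst h3
      have : k = k' := by
        apply Fin.ext
        split_ifs at hp <;> omega
      rw [this]
    · rw [if_neg (not_le.2 h3), if_pos h3.le] at hp
      omega

/-! ### Separators -/

lemma balanced_of_label {V α : Type} [Finite V] {G : SimpleGraph V} {S : Set V} (lab : V → α)
    (h1 : ∀ u v, u ∉ S → v ∉ S → G.Adj u v → lab u = lab v)
    (h2 : ∀ a, 3 * {v | v ∉ S ∧ lab v = a}.ncard ≤ 2 * Nat.card V) : IsBalancedSeparator G S := by
  intro c
  induction c using SimpleGraph.ConnectedComponent.ind with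
  | _ x =>
  refine le_trans (Nat.mul_le_mul_left 3 ?_) (h2 (lab x.1))
  have key : ∀ y : ↥Sᶜ, (G.induce Sᶜ).Reachable x y → lab y.1 = lab x.1 := by
    intro y hy
    rw [SimpleGraph.reachable_iff_reflTransGen] at hy
    induction hy with
    | refl => rfl
    | @tail b c _ hbc ih =>
      rw [← ih]
      exact (h1 _ _ b.2 c.2 hbc).symm
  rw [← Nat.card_coe_set_eq]
  refine Nat.card_le_card_of_injective
    (fun y : ((G.induce Sᶜ).connectedComponentMk x).supp =>
      (⟨y.1.1, y.1.2, key y.1 ?_⟩ : {v | v ∉ S ∧ lab v = lab x.1})) ?_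
  · have := y.2
    rw [SimpleGraph.ConnectedComponent.mem_supp_iff, SimpleGraph.ConnectedComponent.eq] at this
    exact this.symm
  · intro y z hyz
    simp only [Subtype.mk.injEq] at hyz
    exact Subtype.ext (Subtype.ext hyz)

lemma median {α : Type} (Y : Finset α) (p : α → ℕ) (hinj : ∀ a ∈ Y, ∀ b ∈ Y, p a = p b → a = b)
    (hne : Y.Nonempty) :
    ∃ y ∈ Y, 2 * (Y.filter (fun z => p z < p y)).card ≤ Y.card ∧
      2 * (Y.filter (fun z => p y < p z)).card ≤ Y.card := by
  classical
  set Y' := Y.filter (fun y => 2 * (Y.filter (fun z => p z < p y)).card ≤ Y.card) with hY'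
  have hne' : Y'.Nonempty := by
    obtain ⟨y, hy, hmin⟩ := Finset.exists_min_image Y p hne
    refine ⟨y, ?_⟩
    rw [hY', Finset.mem_filter]
    refine ⟨hy, ?_⟩
    have : Y.filter (fun z => p z < p y) = ∅ := by
      rw [Finset.filter_eq_empty_iff]
      intro z hz
      have := hmin z hz
      omega
    rw [this]
    simp
  obtain ⟨y, hy, hmax⟩ := Finset.exists_max_image Y' p hne'
  rw [hY', Finset.mem_filter] at hy
  refine ⟨y, hy.1, hy.2, ?_⟩
  by_contra hcon
  push Not at hcon
  have hne2 : (Y.filter (fun z => p y < p z)).Nonempty := by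
    rw [← Finset.card_pos]
    omega
  obtain ⟨y', hy', hmin⟩ := Finset.exists_min_image _ p hne2
  rw [Finset.mem_filter] at hy'
  have e1 : Y.filter (fun z => p z < p y') = insert y (Y.filter (fun z => p z < p y)) := by
    ext z
    simp only [Finset.mem_filter, Finset.mem_insert]
    constructor
    · rintro ⟨hz, hlt⟩
      rcases lt_trichotomy (p z) (p y) with h | h | h
      · exact Or.inr ⟨hz, h⟩
      · exact Or.inl (hinj z hz y hy.1 h)
      · have := hmin z (Finset.mem_filter.2 ⟨hz, h⟩)
        omega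
    · rintro (rfl | ⟨hz, hlt⟩)
      · exact ⟨hy.1, hy'.2⟩
      · exact ⟨hz, by omega⟩
  have e2 : (Y.filter (fun z => p z < p y')).card = (Y.filter (fun z => p z < p y)).card + 1 := by
    rw [e1, Finset.card_insert_of_notMem]
    simp
  have e3 : y' ∉ Y' := by
    intro h
    have := hmax y' h
    omega
  rw [hY', Finset.mem_filter] at e3
  push Not at e3
  have e4 := e3 hy'.1
  have e5 : Y.filter (fun z => p z < p y') ∪ Y.filter (fun z => p y < p z) = Y := by
    ext z
    simp only [Finset.mem_union, Finset.mem_filter]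
    constructor
    · rintro (h | h) <;> exact h.1
    · intro hz
      rcases lt_or_ge (p y) (p z) with h | h
      · exact Or.inr ⟨hz, h⟩
      · exact Or.inl ⟨hz, by omega⟩
  have e6 : Disjoint (Y.filter (fun z => p z < p y')) (Y.filter (fun z => p y < p z)) := by
    rw [Finset.disjoint_left]
    intro z hz hz'
    have := hmin z hz'
    rw [Finset.mem_filter] at hz
    omega
  have e7 := Finset.card_union_of_disjoint e6
  rw [e5] at e7
  omega

section sep

variable {t l : ℕ} {W : Type} {H : SimpleGraph W} {φ : W → Fin t ⊕ (Fin t × Fin t × Fin l)}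

/-- If the component of `x` contains two branch vertices then it contains a whole leg of each of its
branch vertices. -/
lemma full_leg (hφ : Function.Injective φ) (hH : ∀ a b, H.Adj a b → (host t l).Adj (φ a) (φ b))
    {x b b' : W} {i i' : Fin t} (hb : H.Reachable x b) (hb' : H.Reachable x b')
    (hi : φ b = Sum.inl i) (hi' : φ b' = Sum.inl i') (hne : b ≠ b') :
    ∃ j : Fin t, ∀ k : Fin l, ∃ w, H.Reachable x w ∧ φ w = Sum.inr (i, j, k) := by
  by_contra hcon
  push Not at hcon
  have key : ∀ v, Relation.ReflTransGen H.Adj b v → (φ v = Sum.inl i ∨ ∃ (j : Fin t) (k : Fin l),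
      φ v = Sum.inr (i, j, k) ∧ ∀ k' ≤ k, ∃ w, H.Reachable x w ∧ φ w = Sum.inr (i, j, k')) := by
    intro v hv
    induction hv with
    | refl => exact Or.inl hi
    | @tail u v hu huv ih =>
      have hxu : H.Reachable x u := hb.trans ((SimpleGraph.reachable_iff_reflTransGen _ _).2 hu)
      have hxv : H.Reachable x v := hxu.trans huv.reachable
      have had := hH u v huv
      rw [host, SimpleGraph.fromRel_adj] at had
      obtain ⟨-, had⟩ := had
      rcases ih with ih | ⟨j, k, ih, hk⟩
      · rw [ih] at had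
        rcases hv' : φ v with i₂ | ⟨i₂, j₂, k₂⟩
        · rw [hv'] at had
          simp [rel] at had
        · rw [hv'] at had
          simp only [rel, or_false] at had
          obtain ⟨rfl, h0⟩ := had
          refine Or.inr ⟨j₂, k₂, rfl, fun k' hk' => ⟨v, hxv, ?_⟩⟩
          have : k' = k₂ := by
            apply Fin.ext
            have := Fin.le_def.1 hk'
            omega
          rw [hv', this]
      · rw [ih] at had
        rcases hv' : φ v with i₂ | ⟨i₂, j₂, k₂⟩
        · rw [hv'] at had
          simp only [rel, false_or] at had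
          left
          rw [had.1]
        · rw [hv'] at had
          simp only [rel] at had
          have hfull : ¬ k.val + 1 = l := by
            intro hkl
            obtain ⟨k₀, hk₀⟩ := hcon j
            obtain ⟨w, hw1, hw2⟩ := hk k₀ (by
              rw [Fin.le_def]
              have := k₀.isLt
              omega)
            exact hk₀ w hw1 hw2
          rcases had with (⟨rfl, rfl, h⟩ | ⟨rfl, rfl, h1, h2⟩) | (⟨rfl, rfl, h⟩ | ⟨rfl, rfl, h1, h2⟩)
          · refine Or.inr ⟨j, k₂, rfl, fun k' hk' => ?_⟩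
            rcases Nat.lt_or_ge k'.val k₂.val with h3 | h3
            · exact hk k' (by rw [Fin.le_def]; omega)
            · refine ⟨v, hxv, ?_⟩
              have : k' = k₂ := Fin.ext (le_antisymm (Fin.le_def.1 hk') h3)
              rw [hv', this]
          · exact absurd h1 hfull
          · refine Or.inr ⟨_, k₂, rfl, fun k' hk' => hk k' ?_⟩
            rw [Fin.le_def] at hk' ⊢
            omega
          · exact absurd h2 hfull
  have hbb' : H.Reachable b b' := hb.symm.trans hb'
  rcases key b' ((SimpleGraph.reachable_iff_reflTransGen _ _).1 hbb') with h | ⟨j, k, h, -⟩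
  · exact hne (hφ (by rw [hi, h]))
  · rw [hi'] at h
    exact absurd h (by simp)

/-- Every subgraph of the host graph has a small balanced separator. -/
lemma exists_separator [Finite W] (hφ : Function.Injective φ)
    (hH : ∀ a b, H.Adj a b → (host t l).Adj (φ a) (φ b)) :
    ∃ (S : Set W) (m : ℕ), IsBalancedSeparator H S ∧ S.ncard ≤ m + 1 ∧ m ≤ t ∧
      (m ≤ 1 ∨ m * l ≤ Nat.card W) := by
  classical
  by_cases hbig : ∃ x, 2 * Nat.card W < 3 * {v | H.Reachable x v}.ncard
  swap
  · push Not at hbig
    refine ⟨∅, 0, ?_, by simp, by omega, Or.inl (by omega)⟩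
    refine balanced_of_label (fun v => H.connectedComponentMk v) ?_ ?_
    · intro u v _ _ huv
      exact SimpleGraph.ConnectedComponent.eq.2 huv.reachable
    · intro a
      induction a using SimpleGraph.ConnectedComponent.ind with
      | _ x =>
      refine le_trans (Nat.mul_le_mul_left 3 (Set.ncard_le_ncard ?_ (Set.toFinite _))) (hbig x)
      rintro v ⟨-, hv⟩
      exact (SimpleGraph.ConnectedComponent.eq.1 hv).symm
  obtain ⟨x, hx⟩ := hbig
  set X : Set W := {v | H.Reachable x v} with hX
  set B : Set W := {v | v ∈ X ∧ ∃ i, φ v = Sum.inl i} with hB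
  have hBt : B.ncard ≤ t := by
    rw [← Nat.card_coe_set_eq, ← Nat.card_fin t]
    refine Nat.card_le_card_of_injective (fun b : B => b.2.2.choose) ?_
    intro b c hbc
    apply Subtype.ext
    apply hφ
    rw [b.2.2.choose_spec, c.2.2.choose_spec]
    exact congrArg _ hbc
  have hBl : B.ncard ≤ 1 ∨ B.ncard * l ≤ Nat.card W := by
    rcases Nat.lt_or_ge 1 B.ncard with h1 | h1
    swap
    · exact Or.inl h1
    right
    have hleg : ∀ b : B, ∃ j : Fin t, ∀ k : Fin l, ∃ w, H.Reachable x w ∧
        φ w = Sum.inr (b.2.2.choose, j, k) := by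
      intro b
      obtain ⟨b', hb', hne⟩ := Set.exists_ne_of_one_lt_ncard h1 b.1
      exact full_leg hφ hH b.2.1 hb'.1 b.2.2.choose_spec hb'.2.choose_spec hne.symm
    choose j hj using hleg
    choose w hw1 hw2 using hj
    rw [← Nat.card_coe_set_eq, ← Nat.card_fin l, ← Nat.card_prod]
    refine Nat.card_le_card_of_injective (fun p : B × Fin l => w p.1 p.2) ?_
    rintro ⟨b, k⟩ ⟨c, k'⟩ h
    have h2 : (Sum.inr (b.2.2.choose, j b, k) : Fin t ⊕ (Fin t × Fin t × Fin l)) =
        Sum.inr (c.2.2.choose, j c, k') := by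
      rw [← hw2 b k, ← hw2 c k']
      exact congrArg φ h
    simp only [Sum.inr.injEq, Prod.mk.injEq] at h2
    have h3 : b = c := by
      apply Subtype.ext
      apply hφ
      rw [b.2.2.choose_spec, c.2.2.choose_spec, h2.1]
    rw [h3, h2.2.2]
  have hXc : 3 * {v | v ∉ X}.ncard ≤ 2 * Nat.card W := by
    have h1 := Set.ncard_add_ncard_compl X
    have h2 : {v | v ∉ X} = Xᶜ := rfl
    rw [h2]
    omega
  by_cases hcls : ∃ a, 2 * Nat.card W < 3 * {v | v ∈ X ∧ lbl t l (φ v) = some a}.ncard
  swap
  · push Not at hcls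
    refine ⟨B, B.ncard, ?_, by omega, hBt, hBl⟩
    refine balanced_of_label (fun v => if v ∈ X then some (lbl t l (φ v)) else none) ?_ ?_
    · intro u v hu hv huv
      have huX : u ∈ X ↔ v ∈ X :=
        ⟨fun h => h.trans huv.reachable, fun h => h.trans huv.symm.reachable⟩
      by_cases h : u ∈ X
      · have h' := huX.1 h
        simp only [h, h', if_true, Option.some.injEq]
        have had := hH u v huv
        rcases hu' : φ u with i | u'
        · exact absurd ⟨h, i, hu'⟩ hu
        rcases hv' : φ v with i | v'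
        · exact absurd ⟨h', i, hv'⟩ hv
        rw [hu', hv'] at had
        exact (adj_lbl had).1
      · have h' : v ∉ X := fun h1 => h (huX.2 h1)
        simp only [h, h', if_false]
    · intro a
      rcases a with _ | a
      · refine le_trans (Nat.mul_le_mul_left 3 (Set.ncard_le_ncard ?_ (Set.toFinite _))) hXc
        rintro v ⟨-, hv⟩ hvX
        simp [hvX] at hv
      · rcases a with _ | a
        · have : {v | v ∉ B ∧ (if v ∈ X then some (lbl t l (φ v)) else none) = some none} = ∅ := by
            ext v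
            simp only [Set.mem_ofPred_eq, Set.mem_empty_iff_false, iff_false]
            rintro ⟨h1, h2⟩
            by_cases hvX : v ∈ X
            · simp only [hvX, if_true, Option.some.injEq] at h2
              rcases hv' : φ v with i | v'
              · exact h1 ⟨hvX, i, hv'⟩
              · rw [hv'] at h2
                simp [lbl] at h2
            · simp [hvX] at h2
          rw [this]
          simp
        · refine le_trans (Nat.mul_le_mul_left 3 (Set.ncard_le_ncard ?_ (Set.toFinite _))) (hcls a)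
          rintro v ⟨-, hv⟩
          by_cases hvX : v ∈ X
          · simp only [hvX, if_true, Option.some.injEq] at hv
            exact ⟨hvX, hv⟩
          · simp [hvX] at hv
  obtain ⟨a, ha⟩ := hcls
  set Y : Set W := {v | v ∈ X ∧ lbl t l (φ v) = some a} with hY
  have hposinj : ∀ u ∈ Y, ∀ v ∈ Y, pos t l (φ u) = pos t l (φ v) → u = v := by
    intro u hu v hv huv
    apply hφ
    rcases hu' : φ u with i | u'
    · have := hu.2
      rw [hu'] at this
      simp [lbl] at this
    rcases hv' : φ v with i | v'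
    · have := hv.2
      rw [hv'] at this
      simp [lbl] at this
    have h1 := hu.2
    have h2 := hv.2
    rw [hu'] at h1 huv
    rw [hv'] at h2 huv
    rw [eq_of_pos (h1.trans h2.symm) huv]
  have hYfin : Y.Finite := Set.toFinite _
  have hYc : hYfin.toFinset.card = Y.ncard := (Set.ncard_eq_toFinset_card Y hYfin).symm
  have hYn : Y.ncard ≤ Nat.card W := Set.ncard_le_card Y
  obtain ⟨y, hyY, hy1, hy2⟩ := median hYfin.toFinset (fun v => pos t l (φ v))
    (fun u hu v hv => hposinj u (by simpa using hu) v (by simpa using hv)) (by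
      rw [← Finset.card_pos, hYc]
      omega)
  rw [hYc] at hy1 hy2
  have hyY' : y ∈ Y := by simpa using hyY
  refine ⟨insert y B, B.ncard, ?_, Set.ncard_insert_le _ _, hBt, hBl⟩
  refine balanced_of_label (fun v => if v ∈ X then some (lbl t l (φ v),
    if lbl t l (φ v) = some a then (if pos t l (φ v) < pos t l (φ y) then 0 else 1) else 2)
    else (none : Option (Option (Sym2 (Fin t)) × ℕ))) ?_ ?_
  · intro u v hu hv huv
    have huX : u ∈ X ↔ v ∈ X :=
      ⟨fun h => h.trans huv.reachable, fun h => h.trans huv.symm.reachable⟩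
    by_cases h : u ∈ X
    · have h' := huX.1 h
      simp only [h, h', if_true, Option.some.injEq]
      have had := hH u v huv
      have huB : u ∉ B := fun h1 => hu (Set.mem_insert_of_mem _ h1)
      have hvB : v ∉ B := fun h1 => hv (Set.mem_insert_of_mem _ h1)
      have huy : u ≠ y := fun h1 => hu (h1 ▸ Set.mem_insert _ _)
      have hvy : v ≠ y := fun h1 => hv (h1 ▸ Set.mem_insert _ _)
      rcases hu' : φ u with i | u'
      · exact absurd ⟨h, i, hu'⟩ huB
      rcases hv' : φ v with i | v'
      · exact absurd ⟨h', i, hv'⟩ hvB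
      rw [hu', hv'] at had
      obtain ⟨h1, h2⟩ := adj_lbl had
      rw [← h1]
      by_cases hla : lbl t l (Sum.inr u') = some a
      · simp only [hla, if_true]
        have hpu : pos t l (Sum.inr u') ≠ pos t l (φ y) := by
          intro h3
          rw [← hu'] at h3
          exact huy (hposinj u ⟨h, by rw [hu', hla]⟩ y hyY' h3)
        have hpv : pos t l (Sum.inr v') ≠ pos t l (φ y) := by
          intro h3
          rw [← hv'] at h3
          exact hvy (hposinj v ⟨h', by rw [hv', ← h1, hla]⟩ y hyY' h3)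
        congr 1
        split_ifs <;> omega
      · simp only [hla, if_false]
    · have h' : v ∉ X := fun h1 => h (huX.2 h1)
      simp only [h, h', if_false]
  · intro b
    rcases b with _ | ⟨b, s⟩
    · refine le_trans (Nat.mul_le_mul_left 3 (Set.ncard_le_ncard ?_ (Set.toFinite _))) hXc
      rintro v ⟨-, hv⟩ hvX
      simp [hvX] at hv
    · by_cases hba : b = some a
      · subst hba
        have hlow : 3 * {v | v ∈ Y ∧ pos t l (φ v) < pos t l (φ y)}.ncard ≤ 2 * Nat.card W := by
          have : {v | v ∈ Y ∧ pos t l (φ v) < pos t l (φ y)}.ncard =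
              (hYfin.toFinset.filter (fun z => pos t l (φ z) < pos t l (φ y))).card := by
            rw [← Set.ncard_coe_finset]
            congr 1
            ext v
            simp
          rw [this]
          omega
        have hup : 3 * {v | v ∈ Y ∧ pos t l (φ y) < pos t l (φ v)}.ncard ≤ 2 * Nat.card W := by
          have : {v | v ∈ Y ∧ pos t l (φ y) < pos t l (φ v)}.ncard =
              (hYfin.toFinset.filter (fun z => pos t l (φ y) < pos t l (φ z))).card := by
            rw [← Set.ncard_coe_finset]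
            congr 1
            ext v
            simp
          rw [this]
          omega
        by_cases hs : s = 0
        · refine le_trans (Nat.mul_le_mul_left 3 (Set.ncard_le_ncard ?_ (Set.toFinite _))) hlow
          rintro v ⟨-, hv⟩
          by_cases hvX : v ∈ X
          · simp only [hvX, if_true, Option.some.injEq, Prod.mk.injEq] at hv
            obtain ⟨h1, h2⟩ := hv
            refine ⟨⟨hvX, h1⟩, ?_⟩
            by_contra h3
            simp only [h1, h3, if_true, if_false] at h2
            omega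
          · simp [hvX] at hv
        · refine le_trans (Nat.mul_le_mul_left 3 (Set.ncard_le_ncard ?_ (Set.toFinite _))) hup
          rintro v ⟨hvS, hv⟩
          by_cases hvX : v ∈ X
          · simp only [hvX, if_true, Option.some.injEq, Prod.mk.injEq] at hv
            obtain ⟨h1, h2⟩ := hv
            have hvY : v ∈ Y := ⟨hvX, h1⟩
            refine ⟨hvY, ?_⟩
            have hvy : v ≠ y := fun h3 => hvS (h3 ▸ Set.mem_insert _ _)
            have h4 : ¬ pos t l (φ v) < pos t l (φ y) := by
              intro h3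
              simp only [h1, h3, if_true] at h2
              omega
            have h5 : pos t l (φ v) ≠ pos t l (φ y) := fun h3 => hvy (hposinj v hvY y hyY' h3)
            omega
          · simp [hvX] at hv
      · have h1 : {v | v ∉ Y}.ncard + Y.ncard = Nat.card W := by
          have := Set.ncard_add_ncard_compl Y
          have h2 : {v | v ∉ Y} = Yᶜ := rfl
          rw [h2]
          omega
        refine le_trans (Nat.mul_le_mul_left 3 (Set.ncard_le_ncard (t := {v | v ∉ Y}) ?_
          (Set.toFinite _))) (by omega)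
        rintro v ⟨-, hv⟩ hvY
        simp only [hvY.1, if_true, Option.some.injEq, Prod.mk.injEq] at hv
        exact hba (hv.1.symm.trans hvY.2)

end sep

/-! ### The class -/

/-- The length of the legs. -/
noncomputable def len (δ : ℝ) (t : ℕ) : ℕ := ⌈(t : ℝ) ^ (δ / (1 - δ))⌉₊

/-- The graphs which are isomorphic to a subgraph of one of the graphs `host t (len δ t)`. -/
def cls (δ : ℝ) : GraphClass := fun W H =>
  ∃ (t : ℕ) (φ : W → Fin t ⊕ (Fin t × Fin t × Fin (len δ t))), Function.Injective φ ∧
    ∀ a b, H.Adj a b → (host t (len δ t)).Adj (φ a) (φ b)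

lemma cls_monotone (δ : ℝ) : IsMonotone (cls δ) := by
  rintro V W _ _ G H f hf hH ⟨t, φ, h1, h2⟩
  exact ⟨t, φ ∘ f, h1.comp hf, fun a b hab => h2 _ _ (hH a b hab)⟩

lemma cls_separators {δ : ℝ} (h0 : 0 < δ) (h1 : δ < 1) : HasSeparators (cls δ) δ := by
  refine ⟨3, ?_⟩
  rintro V _ G ⟨t, φ, hφ, hG⟩
  obtain ⟨S, m, hS, hSm, hmt, hml⟩ := exists_separator hφ hG
  refine ⟨S, hS, ?_⟩
  rcases Nat.eq_zero_or_pos (Nat.card V) with hn | hn
  · have : S.ncard = 0 := by
      have := Set.ncard_le_card S
      omega
    rw [this, hn]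
    have : (0 : ℝ) ≤ ((0 : ℕ) : ℝ) ^ (1 - δ) := by positivity
    simpa using this
  have hn1 : (1 : ℝ) ≤ (Nat.card V : ℝ) ^ (1 - δ) :=
    Real.one_le_rpow (by exact_mod_cast hn) (by linarith)
  have hSm' : (S.ncard : ℝ) ≤ m + 1 := by exact_mod_cast hSm
  rcases Nat.lt_or_ge 1 m with h2 | h2
  swap
  · have : (m : ℝ) ≤ 1 := by exact_mod_cast h2
    linarith
  have hml' : m * len δ t ≤ Nat.card V := by
    rcases hml with h | h
    · omega
    · exact h
  have hm0 : (0 : ℝ) < m := by
    have : 0 < m := by omega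
    exact_mod_cast this
  have ht0 : (0 : ℝ) < t := by
    have : 0 < t := by omega
    exact_mod_cast this
  have hl : (t : ℝ) ^ (δ / (1 - δ)) ≤ (len δ t : ℝ) := Nat.le_ceil _
  have hl0 : (0 : ℝ) < len δ t := lt_of_lt_of_le (by positivity) hl
  have h3 : (t : ℝ) ^ δ ≤ (len δ t : ℝ) ^ (1 - δ) := by
    have := Real.rpow_le_rpow (by positivity) hl (by linarith : (0 : ℝ) ≤ 1 - δ)
    rwa [← Real.rpow_mul ht0.le, div_mul_cancel₀ _ (by linarith : (1 - δ) ≠ 0)] at this
  have h4 : (m : ℝ) ≤ (Nat.card V : ℝ) ^ (1 - δ) := by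
    calc (m : ℝ) = (m : ℝ) ^ δ * (m : ℝ) ^ (1 - δ) := by
          rw [← Real.rpow_add hm0]
          simp
      _ ≤ (t : ℝ) ^ δ * (m : ℝ) ^ (1 - δ) := by
          gcongr
      _ ≤ (len δ t : ℝ) ^ (1 - δ) * (m : ℝ) ^ (1 - δ) := by
          gcongr
      _ = ((m * len δ t : ℕ) : ℝ) ^ (1 - δ) := by
          push_cast
          rw [Real.mul_rpow hm0.le hl0.le, mul_comm]
      _ ≤ (Nat.card V : ℝ) ^ (1 - δ) := by
          apply Real.rpow_le_rpow (by positivity) (by exact_mod_cast hml') (by linarith)
  linarith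

/-- The complete graph is a depth-`l` minor of the host graph. -/
lemma complete_minor {t l r : ℕ} (hl : l ≤ r) (hl0 : 2 ≤ t → 1 ≤ l) :
    IsDepthMinor r (⊤ : SimpleGraph (Fin t)) (host t l) := by
  classical
  set S : Fin t → Set (Fin t ⊕ (Fin t × Fin t × Fin l)) := fun i =>
    {v | v = Sum.inl i ∨ ∃ j k, v = Sum.inr (i, j, k)} with hS
  refine ⟨S, ?_, ?_, ?_⟩
  · intro u v huv
    rw [Set.disjoint_left]
    rintro x (rfl | ⟨j, k, rfl⟩) (h | ⟨j', k', h⟩)
    · simp only [Sum.inl.injEq] at h
      exact huv h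
    · simp at h
    · simp at h
    · simp only [Sum.inr.injEq, Prod.mk.injEq] at h
      exact huv h.1
  · intro i
    refine ⟨⟨Sum.inl i, Or.inl rfl⟩, ?_⟩
    have key : ∀ (j : Fin t) (n : ℕ) (hn : n < l),
        ∃ p : ((host t l).induce (S i)).Walk ⟨Sum.inl i, Or.inl rfl⟩
          ⟨Sum.inr (i, j, ⟨n, hn⟩), Or.inr ⟨j, ⟨n, hn⟩, rfl⟩⟩, p.length = n + 1 := by
      intro j n
      induction n with
      | zero =>
        intro hn
        have had : ((host t l).induce (S i)).Adj ⟨Sum.inl i, Or.inl rfl⟩
            ⟨Sum.inr (i, j, ⟨0, hn⟩), Or.inr ⟨j, ⟨0, hn⟩, rfl⟩⟩ := by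
          rw [SimpleGraph.comap_adj, host, SimpleGraph.fromRel_adj]
          exact ⟨by simp, Or.inl ⟨rfl, rfl⟩⟩
        exact ⟨had.toWalk, by simp⟩
      | succ n ih =>
        intro hn
        obtain ⟨p, hp⟩ := ih (by omega)
        have had : ((host t l).induce (S i)).Adj
            ⟨Sum.inr (i, j, ⟨n, by omega⟩), Or.inr ⟨j, ⟨n, by omega⟩, rfl⟩⟩
            ⟨Sum.inr (i, j, ⟨n + 1, hn⟩), Or.inr ⟨j, ⟨n + 1, hn⟩, rfl⟩⟩ := by
          rw [SimpleGraph.comap_adj, host, SimpleGraph.fromRel_adj]
          exact ⟨by simp, Or.inl (Or.inl ⟨rfl, rfl, rfl⟩)⟩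
        exact ⟨p.concat had, by rw [SimpleGraph.Walk.length_concat, hp]⟩
    rintro ⟨y, (rfl | ⟨j, k, rfl⟩)⟩
    · exact ⟨SimpleGraph.Walk.nil, by simp⟩
    · obtain ⟨p, hp⟩ := key j k.val k.isLt
      refine ⟨p, ?_⟩
      have := k.isLt
      omega
  · intro i j hij
    have hij' : i ≠ j := by simpa using hij
    have ht : 2 ≤ t := by
      have h1 := i.isLt
      have h2 := j.isLt
      by_contra h3
      apply hij'
      apply Fin.ext
      omega
    have h1 := hl0 ht
    refine ⟨Sum.inr (i, j, ⟨l - 1, by omega⟩), Or.inr ⟨_, _, rfl⟩,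
      Sum.inr (j, i, ⟨l - 1, by omega⟩), Or.inr ⟨_, _, rfl⟩, ?_⟩
    rw [host, SimpleGraph.fromRel_adj]
    refine ⟨?_, Or.inl (Or.inr ⟨rfl, rfl, ?_, ?_⟩)⟩
    · intro h
      simp only [Sum.inr.injEq, Prod.mk.injEq] at h
      exact hij' h.1
    · simp only
      omega
    · simp only
      omega

lemma cls_minor {δ : ℝ} (h0 : 0 < δ) (h1 : δ < 1) (r t : ℕ)
    (h : (t : ℝ) ≤ (r : ℝ) ^ ((1 - δ) / δ)) :
    cls δ _ (host t (len δ t)) ∧
      IsDepthMinor r (⊤ : SimpleGraph (Fin t)) (host t (len δ t)) := by
  refine ⟨⟨t, id, Function.injective_id, fun a b hab => hab⟩, complete_minor ?_ ?_⟩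
  · rw [len, Nat.ceil_le]
    have h1' : (0 : ℝ) < 1 - δ := by linarith
    have := Real.rpow_le_rpow (by positivity) h (by positivity : (0 : ℝ) ≤ δ / (1 - δ))
    rwa [← Real.rpow_mul (by positivity), show (1 - δ) / δ * (δ / (1 - δ)) = 1 by
      field_simp, Real.rpow_one] at this
  · intro ht
    rw [len, Nat.one_le_ceil_iff]
    have : (0 : ℝ) < t := by
      have : 0 < t := by omega
      exact_mod_cast this
    positivity

lemma averageDegree_top (t : ℕ) (ht : 1 ≤ t) :
    averageDegree (⊤ : SimpleGraph (Fin t)) = (t : ℝ) - 1 := by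
  have h1 : (⊤ : SimpleGraph (Fin t)).edgeSet.ncard = t.choose 2 := by
    rw [← SimpleGraph.coe_edgeFinset, Set.ncard_coe_finset,
      SimpleGraph.card_edgeFinset_top_eq_card_choose_two, Fintype.card_fin]
  rw [averageDegree, h1, Nat.card_fin, Nat.cast_choose_two]
  have : (0 : ℝ) < t := by exact_mod_cast ht
  field_simp

/-- (1) Every `c` in the set `A` of the problem is at least `1`. (2) So, if every `c > 1` is in `A`
(known), then `inf A = 1`. (3) For every `0 < δ < 1` there is a monotone class with balanced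
separators of order `O(n ^ (1 - δ))` such that for every `r` all complete graphs with
`t ≤ r ^ ((1 - δ) / δ)` vertices are depth-`r` minors of members. -/
theorem result :
    (∀ c ∈ goodExponents, (1 : ℝ) ≤ c) ∧
    ((∀ c : ℝ, 1 < c → c ∈ goodExponents) → sInf goodExponents = 1) ∧
    (∀ δ : ℝ, 0 < δ → δ < 1 → ∃ C : GraphClass, IsMonotone C ∧ HasSeparators C δ ∧
      ∀ r t : ℕ, (t : ℝ) ≤ (r : ℝ) ^ ((1 - δ) / δ) →
        ∃ (V : Type) (_ : Finite V) (G : SimpleGraph V), C V G ∧
          IsDepthMinor r (⊤ : SimpleGraph (Fin t)) G) := by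
  have p1 : ∀ c ∈ goodExponents, (1 : ℝ) ≤ c := by
    rintro c ⟨hc, hA⟩
    by_contra hc1
    push Not at hc1
    set δ := (1 - c) / 2 with hδ
    have hδ0 : 0 < δ := by
      rw [hδ]
      linarith
    have hδ1 : δ < 1 := by
      rw [hδ]
      linarith
    obtain ⟨f, hf, hO⟩ := hA δ hδ0 hδ1.le (cls δ) (cls_monotone δ) (cls_separators hδ0 hδ1)
    obtain ⟨M, hM⟩ := hO.bound
    obtain ⟨N, hN⟩ := eventually_atTop.1 hM
    obtain ⟨r, hr⟩ := exists_nat_gt (max (N : ℝ) (max 1 (M + 2)))
    have hrN : (N : ℝ) < r := lt_of_le_of_lt (le_max_left _ _) hr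
    have hr1 : (1 : ℝ) < r := lt_of_le_of_lt ((le_max_left _ _).trans (le_max_right _ _)) hr
    have hrM : M + 2 < r := lt_of_le_of_lt ((le_max_right _ _).trans (le_max_right _ _)) hr
    have h1 := hN r (by exact_mod_cast hrN.le)
    have hex : (1 - δ) / δ = c / δ + 1 := by
      field_simp
      rw [hδ]
      ring
    set P : ℝ := (r : ℝ) ^ (c / δ) with hP
    have hP1 : 1 ≤ P := Real.one_le_rpow hr1.le (by positivity)
    have hpow : (r : ℝ) ^ ((1 - δ) / δ) = P * r := by
      rw [hex, Real.rpow_add (by linarith), Real.rpow_one]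
    set t : ℕ := ⌊(r : ℝ) ^ ((1 - δ) / δ)⌋₊ with ht
    have ht1 : (t : ℝ) ≤ (r : ℝ) ^ ((1 - δ) / δ) := Nat.floor_le (by positivity)
    have ht2 : (r : ℝ) ^ ((1 - δ) / δ) < t + 1 := Nat.lt_floor_add_one _
    have ht3 : 1 ≤ t := by
      rw [ht, Nat.one_le_floor_iff]
      exact Real.one_le_rpow hr1.le (by
        have : (0 : ℝ) < 1 - δ := by linarith
        positivity)
    obtain ⟨h2, h3⟩ := cls_minor hδ0 hδ1 r t ht1
    have : Nonempty (Fin t) := ⟨⟨0, ht3⟩⟩
    have h4 := hf r _ (Fin t) _ _ h2 h3
    rw [averageDegree_top t ht3] at h4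
    have h5 : f r ≤ M * P := by
      refine (le_abs_self _).trans ?_
      rw [Real.norm_eq_abs, Real.norm_eq_abs, abs_of_nonneg (by positivity : (0 : ℝ) ≤ P)] at h1
      exact h1
    rw [hpow] at ht2
    nlinarith
  refine ⟨p1, ?_, ?_⟩
  · intro h
    apply le_antisymm
    · apply le_of_forall_gt_imp_ge_of_dense
      intro c hc
      exact csInf_le ⟨1, fun x hx => p1 x hx⟩ (h c hc)
    · exact le_csInf ⟨2, h 2 (by norm_num)⟩ p1
  · intro δ h0 h1
    refine ⟨cls δ, cls_monotone δ, cls_separators h0 h1, fun r t hrt => ?_⟩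
    obtain ⟨h2, h3⟩ := cls_minor h0 h1 r t hrt
    exact ⟨_, inferInstance, _, h2, h3⟩

end Pool.Agent.Results.MP_2f3b43_co.SeparatorExponent
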